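import Mathlib
import Pool.Agent.Helper41.E243.Merge

set_option autoImplicit false

namespace Pool.Agent.Results.MP_e243c1_co.SharpExponent

open Finset Real Pool.Agent.Helper41.E243

/-- The numerical factor of the bound for `k` colours. -/
noncomputable def bfac (t k : ℕ) : ℝ :=
  ((2 * t - 1).choose t : ℝ) * (k.choose t : ℝ) / ((k + t - 1).choose t : ℝ)

lemma bfac_succ (t k : ℕ) (ht : 1 ≤ t) (hk : t ≤ k) :
    bfac t (k + 1) * (1 - (t.choose 2 : ℝ) / ((k + 1).choose 2 : ℝ)) = bfac t k := by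
  have h1 := Nat.choose_mul_succ_eq k t
  have h2 := Nat.choose_mul_succ_eq (k + t - 1) t
  have e1 : k + 1 + t - 1 = k + t := by omega
  have e2 : k + t - 1 + 1 = k + t := by omega
  have e3 : k + t - t = k := by omega
  rw [e2, e3] at h2
  unfold bfac
  rw [e1, Nat.cast_choose_two, Nat.cast_choose_two]
  have h1' : (k.choose t : ℝ) * (k + 1) = ((k + 1).choose t : ℝ) * (k + 1 - t) := by
    have h3 : ((k + 1 - t : ℕ) : ℝ) = (k : ℝ) + 1 - t := by
      rw [Nat.cast_sub (by omega)]; push_cast; ring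
    have := congrArg (Nat.cast : ℕ → ℝ) h1
    push_cast at this
    rw [h3] at this
    exact this
  have h2' : ((k + t - 1).choose t : ℝ) * (k + t) = ((k + t).choose t : ℝ) * k := by
    exact_mod_cast h2
  have hk0 : (0 : ℝ) < k := by exact_mod_cast (by omega : 0 < k)
  have ht0 : (0 : ℝ) < t := by exact_mod_cast (by omega : 0 < t)
  have hkt : (t : ℝ) ≤ k := by exact_mod_cast hk
  have hc1 : (0 : ℝ) < ((k + t - 1).choose t : ℝ) := by
    exact_mod_cast Nat.choose_pos (by omega)
  have hc2 : (0 : ℝ) < ((k + t).choose t : ℝ) := by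
    exact_mod_cast Nat.choose_pos (by omega)
  have hd : (0 : ℝ) < (k : ℝ) + 1 - t := by linarith
  have g1 : ((k + 1).choose t : ℝ) = (k.choose t : ℝ) * (k + 1) / (k + 1 - t) := by
    rw [h1']; field_simp
  have g2 : ((k + t).choose t : ℝ) = ((k + t - 1).choose t : ℝ) * (k + t) / k := by
    rw [h2']; field_simp
  rw [g1, g2]
  push_cast
  rw [add_sub_cancel_right]
  field_simp
  ring

lemma one_le_bfac (t : ℕ) (ht : 1 ≤ t) (k : ℕ) (hk : t ≤ k) : 1 ≤ bfac t k := by
  induction k, hk using Nat.le_induction with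
  | base =>
    unfold bfac
    have e : t + t - 1 = 2 * t - 1 := by omega
    have h : (0 : ℝ) < ((2 * t - 1).choose t : ℝ) := by
      exact_mod_cast Nat.choose_pos (by omega)
    rw [e, Nat.choose_self, Nat.cast_one, mul_one, div_self h.ne']
  | succ k hk ih =>
    have h := bfac_succ t k ht hk
    have hb : 0 ≤ bfac t (k + 1) := by unfold bfac; positivity
    have h2 : bfac t (k + 1) * (1 - (t.choose 2 : ℝ) / ((k + 1).choose 2 : ℝ)) ≤ bfac t (k + 1) := by
      apply mul_le_of_le_one_right hb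
      have : (0 : ℝ) ≤ (t.choose 2 : ℝ) / ((k + 1).choose 2 : ℝ) := by positivity
      linarith
    linarith

/-- The general bound, for any admissible pair of sequences. -/
theorem general (n t : ℕ) (ht : 1 ≤ t) (b E : ℕ → ℝ)
    (hb : ∀ k, t ≤ k → b k ≤ b (k + 1) * (1 - E (k + 1) / ((k + 1).choose 2 : ℝ)))
    (hE0 : ∀ k, t ≤ k → 0 ≤ E k) (hEN : ∀ k, t ≤ k → E k ≤ (k.choose 2 : ℝ))
    (hEb : ∀ k, t ≤ k → (t.choose 2 : ℝ) - log (b k) ≤ E k)
    (hb1 : ∀ k, t ≤ k → 1 ≤ b k)
    (F₁ F₂ : Finset (SimpleGraph (Fin n)))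
    (h : ∀ G ∈ F₁, ∀ H ∈ F₂, (t : ℕ∞) ≤ (G ⊓ H).chromaticNumber)
    (h1ne : F₁.Nonempty) (h2ne : F₂.Nonempty) :
    t ≤ n ∧ √((F₁.card : ℝ) * F₂.card) ≤ b n ^ (log 2) * 2 ^ (n.choose 2 - t.choose 2) := by
  classical
  set S : Finset (Sym2 (Fin n)) := (⊤ : SimpleGraph (Fin n)).edgeFinset with hSdef
  have hScard : S.card = n.choose 2 := by
    rw [hSdef, SimpleGraph.card_edgeFinset_top_eq_card_choose_two, Fintype.card_fin]
  have hES : ∀ G : SimpleGraph (Fin n), G.edgeFinset ⊆ S := by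
    intro G
    rw [hSdef]
    exact SimpleGraph.edgeFinset_mono le_top
  set 𝒜 : Finset (Finset (Sym2 (Fin n))) := F₁.image (fun G => G.edgeFinset) with hA
  set ℬ : Finset (Finset (Sym2 (Fin n))) := F₂.image (fun G => (Gᶜ).edgeFinset) with hB
  have hAc : 𝒜.card = F₁.card := by
    rw [hA]
    apply card_image_of_injective
    intro G H h
    exact SimpleGraph.edgeFinset_inj.1 h
  have hBc : ℬ.card = F₂.card := by
    rw [hB]
    apply card_image_of_injective
    intro G H h
    have h2 := SimpleGraph.edgeFinset_inj.1 h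
    exact compl_injective h2
  have hAS : ∀ A ∈ 𝒜, A ⊆ S := by
    intro A hA'
    obtain ⟨G, _, rfl⟩ := mem_image.1 hA'
    exact hES G
  have hBS : ∀ B ∈ ℬ, B ⊆ S := by
    intro B hB'
    obtain ⟨G, _, rfl⟩ := mem_image.1 hB'
    intro e he
    rw [SimpleGraph.mem_edgeFinset] at he
    rw [hSdef, SimpleGraph.mem_edgeFinset]
    exact SimpleGraph.edgeSet_mono le_top he
  have hcr : cr S (id : Fin n → Fin n) = S := by
    unfold cr
    apply filter_true_of_mem
    intro e he
    rw [Sym2.map_id, id]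
    rw [hSdef, SimpleGraph.mem_edgeFinset] at he
    exact SimpleGraph.not_isDiag_of_mem_edgeSet _ he
  have hmain := merge_bound S t b E hb hE0 hEN hEb hb1 ht n (Fin n) id 𝒜 ℬ (Fintype.card_fin n)
    (h1ne.image _) (h2ne.image _) hAS hBS
    (by
      intro A _ B _ e he hd
      exfalso
      rw [← hcr] at he
      exact (mem_filter.1 he).2 hd)
    (by
      intro A hA' B hB' L _ f hL
      obtain ⟨G, hG, rfl⟩ := mem_image.1 hA'
      obtain ⟨H, hH, rfl⟩ := mem_image.1 hB'
      by_contra hno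
      push Not at hno
      have hcol : (G ⊓ H).Coloring L := by
        refine SimpleGraph.Coloring.mk f ?_
        intro u v huv heq
        rw [SimpleGraph.inf_adj] at huv
        have h1 : s(u, v) ∈ G.edgeFinset := by
          rw [SimpleGraph.mem_edgeFinset, SimpleGraph.mem_edgeSet]; exact huv.1
        have h2 := (hno s(u, v) (hES G h1) (by simpa using heq)).1 h1
        rw [SimpleGraph.mem_edgeFinset, SimpleGraph.mem_edgeSet, SimpleGraph.compl_adj] at h2
        exact h2.2 huv.2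
      have h3 := (h G hG H hH).trans hcol.colorable.chromaticNumber_le
      have h4 : t ≤ Fintype.card L := by exact_mod_cast h3
      omega)
  obtain ⟨htn, hmain⟩ := hmain
  rw [hcr, hScard, hAc, hBc] at hmain
  have hch : t.choose 2 ≤ n.choose 2 := Nat.choose_le_choose 2 htn
  have hpow : (2 : ℝ) ^ (n.choose 2) * (2 ^ (t.choose 2))⁻¹ = 2 ^ (n.choose 2 - t.choose 2) := by
    rw [pow_sub₀ _ (by norm_num) hch]
  rw [hpow, mul_comm (2 ^ (n.choose 2 - t.choose 2) : ℝ)] at hmain
  exact ⟨htn, hmain⟩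

/-- The sequence used for `t = 4`, without the tangent correction. -/
noncomputable def pfac (k : ℕ) : ℝ :=
  5 * ((k : ℝ) - 1) * ((k : ℝ) - 2) / (((k : ℝ) + 1) * ((k : ℝ) + 2))

/-- The sequence used for `t = 4`. -/
noncomputable def ffac (k : ℕ) : ℝ := (1 + exp 2 / 3) * pfac k - exp 2 / 3

lemma one_le_pfac (k : ℕ) (hk : 4 ≤ k) : 1 ≤ pfac k := by
  have h : (4 : ℝ) ≤ k := by exact_mod_cast hk
  unfold pfac
  rw [le_div_iff₀ (by positivity)]
  nlinarith

lemma pfac_le (k : ℕ) (hk : 4 ≤ k) : pfac k ≤ 5 := by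
  have h : (4 : ℝ) ≤ k := by exact_mod_cast hk
  unfold pfac
  rw [div_le_iff₀ (by positivity)]
  nlinarith

lemma one_le_ffac (k : ℕ) (hk : 4 ≤ k) : 1 ≤ ffac k := by
  have h := one_le_pfac k hk
  have h2 : 0 < exp 2 / 3 := by positivity
  unfold ffac
  nlinarith

lemma exp_two_lt : exp 2 < 7.389057 := by
  have h := exp_one_lt_d9
  have h2 : exp 2 = exp 1 ^ 2 := by
    rw [← exp_nat_mul]; norm_num
  rw [h2]
  have h3 := exp_pos 1
  nlinarith

lemma ffac_le (k : ℕ) (hk : 4 ≤ k) : ffac k ≤ 14.8521 := by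
  have h := pfac_le k hk
  have h2 := exp_two_lt
  have h3 : 0 < exp 2 := exp_pos 2
  unfold ffac
  nlinarith

lemma choose_two_real (k : ℕ) : ((k + 1).choose 2 : ℝ) = ((k : ℝ) + 1) * k / 2 := by
  rw [Nat.cast_choose_two]
  push_cast
  ring

lemma ffac_succ (k : ℕ) (hk : 4 ≤ k) :
    ffac k ≤ ffac (k + 1) * (1 - (6 - log (ffac (k + 1))) / ((k + 1).choose 2 : ℝ)) := by
  have h : (4 : ℝ) ≤ k := by exact_mod_cast hk
  have hf1 := one_le_ffac (k + 1) (by omega)
  have hN : (0 : ℝ) < ((k + 1).choose 2 : ℝ) := by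
    rw [choose_two_real]; positivity
  have hP : pfac (k + 1) * (1 - 3 / ((k + 1).choose 2 : ℝ)) = pfac k := by
    rw [choose_two_real]
    unfold pfac
    push_cast
    have h1 : (k : ℝ) + 1 + 1 ≠ 0 := by positivity
    have h2 : (k : ℝ) + 1 + 2 ≠ 0 := by positivity
    have h3 : (k : ℝ) + 2 ≠ 0 := by positivity
    have h4 : (k : ℝ) ≠ 0 := by positivity
    field_simp
    ring
  have hF : ffac (k + 1) * (1 - 3 / ((k + 1).choose 2 : ℝ)) =
      ffac k + exp 2 / ((k + 1).choose 2 : ℝ) := by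
    unfold ffac
    rw [← hP]
    ring
  -- tangent line bound for the logarithm
  have hlog : 3 * ffac (k + 1) - exp 2 ≤ ffac (k + 1) * log (ffac (k + 1)) := by
    have h5 := one_sub_inv_le_log_of_pos (show 0 < ffac (k + 1) / exp 2 by positivity)
    rw [log_div (by positivity) (by positivity), log_exp] at h5
    have h6 := mul_le_mul_of_nonneg_left h5 (zero_le_one.trans hf1)
    have h7 : ffac (k + 1) * (1 - (ffac (k + 1) / exp 2)⁻¹) = ffac (k + 1) - exp 2 := by
      field_simp
    rw [h7] at h6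
    linarith
  have h8 : ffac (k + 1) * (1 - (6 - log (ffac (k + 1))) / ((k + 1).choose 2 : ℝ)) =
      ffac (k + 1) * (1 - 3 / ((k + 1).choose 2 : ℝ)) - exp 2 / ((k + 1).choose 2 : ℝ) +
      (ffac (k + 1) * log (ffac (k + 1)) - (3 * ffac (k + 1) - exp 2)) /
        ((k + 1).choose 2 : ℝ) := by
    field_simp
    ring
  rw [h8, hF]
  have h9 : 0 ≤ (ffac (k + 1) * log (ffac (k + 1)) - (3 * ffac (k + 1) - exp 2)) /
      ((k + 1).choose 2 : ℝ) := div_nonneg (by linarith) hN.le
  linarith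

lemma ffac_rpow (k : ℕ) (hk : 4 ≤ k) : ffac k ^ (log 2) ≤ 13 / 2 := by
  have h1 := one_le_ffac k hk
  have h2 := ffac_le k hk
  have h3 : log 2 ≤ 43 / 62 := by
    have := log_two_lt_d9
    linarith
  calc ffac k ^ (log 2) ≤ ffac k ^ ((43 : ℝ) / 62) := rpow_le_rpow_of_exponent_le h1 h3
    _ ≤ (14.8521 : ℝ) ^ ((43 : ℝ) / 62) := rpow_le_rpow (by linarith) h2 (by norm_num)
    _ = ((14.8521 : ℝ) ^ (43 : ℕ)) ^ ((1 : ℝ) / 62) := by
        rw [← rpow_natCast, ← rpow_mul (by norm_num)]
        norm_num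
    _ ≤ (((13 : ℝ) / 2) ^ (62 : ℕ)) ^ ((1 : ℝ) / 62) := by
        apply rpow_le_rpow (by positivity) _ (by norm_num)
        norm_num
    _ = 13 / 2 := by
        rw [← rpow_natCast, ← rpow_mul (by norm_num)]
        norm_num

/-- Let `F₁`, `F₂` be families of graphs on `n` labelled vertices such that `G ∩ H` has chromatic
number at least `t` for all `G ∈ F₁` and `H ∈ F₂`. Then
`√(|F₁| |F₂|) ≤ (C(2t-1,t) C(n,t) / C(n+t-1,t)) ^ (log 2) * 2 ^ (C(n,2) - C(t,2))`,
where `log` is the natural logarithm; and for `t = 4`,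
`√(|F₁| |F₂|) ≤ (13/2) * 2 ^ (C(n,2) - C(4,2))`. -/
theorem result (n t : ℕ) (F₁ F₂ : Finset (SimpleGraph (Fin n)))
    (h : ∀ G ∈ F₁, ∀ H ∈ F₂, (t : ℕ∞) ≤ (G ⊓ H).chromaticNumber) :
    √((F₁.card : ℝ) * F₂.card) ≤
      (((2 * t - 1).choose t : ℝ) * (n.choose t : ℝ) / ((n + t - 1).choose t : ℝ)) ^ (Real.log 2) *
        2 ^ (n.choose 2 - t.choose 2) ∧
    (t = 4 → √((F₁.card : ℝ) * F₂.card) ≤ (13 / 2) * 2 ^ (n.choose 2 - 6)) := by
  classical
  rcases F₁.eq_empty_or_nonempty with he | h1ne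
  · rw [he, card_empty, Nat.cast_zero, zero_mul, sqrt_zero]
    exact ⟨by positivity, fun _ => by positivity⟩
  rcases F₂.eq_empty_or_nonempty with he | h2ne
  · rw [he, card_empty, Nat.cast_zero, mul_zero, sqrt_zero]
    exact ⟨by positivity, fun _ => by positivity⟩
  constructor
  · rcases Nat.eq_zero_or_pos t with ht0 | ht
    · subst ht0
      have hcard : ∀ F : Finset (SimpleGraph (Fin n)), F.card ≤ 2 ^ (n.choose 2) := by
        intro F
        have h1 : (F.image (fun G => G.edgeFinset)) ⊆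
            ((⊤ : SimpleGraph (Fin n)).edgeFinset).powerset := by
          intro A hA
          obtain ⟨G, _, rfl⟩ := mem_image.1 hA
          exact mem_powerset.2 (SimpleGraph.edgeFinset_mono le_top)
        have h2 := card_le_card h1
        rw [card_powerset, SimpleGraph.card_edgeFinset_top_eq_card_choose_two, Fintype.card_fin,
          card_image_of_injective _ (fun G H hGH => SimpleGraph.edgeFinset_inj.1 hGH)] at h2
        exact h2
      have g3 : ((F₁.card : ℝ) * F₂.card) ≤ (2 ^ (n.choose 2)) ^ 2 := by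
        have : F₁.card * F₂.card ≤ (2 ^ (n.choose 2)) ^ 2 := by
          rw [pow_two]
          exact Nat.mul_le_mul (hcard F₁) (hcard F₂)
        exact_mod_cast this
      have g4 : √((F₁.card : ℝ) * F₂.card) ≤ 2 ^ (n.choose 2) := by
        rw [sqrt_le_left (by positivity)]
        exact g3
      have e0 : (0 : ℕ).choose 2 = 0 := rfl
      rw [Nat.choose_zero_right, Nat.choose_zero_right, Nat.choose_zero_right, Nat.cast_one,
        mul_one, div_one, one_rpow, one_mul, e0, Nat.sub_zero]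
      exact g4
    · have hg := general n t ht (bfac t) (fun _ => (t.choose 2 : ℝ))
        (fun k hk => (bfac_succ t k ht hk).ge) (fun k _ => by positivity)
        (fun k hk => by exact_mod_cast Nat.choose_le_choose 2 hk)
        (fun k hk => by
          have := log_nonneg (one_le_bfac t ht k hk)
          linarith)
        (fun k hk => one_le_bfac t ht k hk) F₁ F₂ h h1ne h2ne
      exact hg.2
  · intro ht4
    subst ht4
    have e4 : (4 : ℕ).choose 2 = 6 := rfl
    have hl : ∀ k : ℕ, 4 ≤ k → 0 ≤ log (ffac k) ∧ log (ffac k) ≤ 6 := by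
      intro k hk
      have h1 := one_le_ffac k hk
      have h2 := ffac_le k hk
      refine ⟨log_nonneg h1, ?_⟩
      rw [log_le_iff_le_exp (by linarith)]
      have h3 : (2 : ℝ) ≤ exp 1 := by
        have := add_one_le_exp (1 : ℝ)
        linarith
      have h4 : exp 6 = exp 1 ^ 6 := by
        rw [← exp_nat_mul]; norm_num
      have h5 : (2 : ℝ) ^ 6 ≤ exp 1 ^ 6 := pow_le_pow_left₀ (by norm_num) h3 6
      rw [h4]
      linarith
    obtain ⟨hn, hg⟩ := general n 4 (by norm_num) ffac (fun k => 6 - log (ffac k))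
      (fun k hk => ffac_succ k hk)
      (fun k hk => by have := (hl k hk).2; linarith)
      (fun k hk => by
        have h6 : (4 : ℕ).choose 2 ≤ k.choose 2 := Nat.choose_le_choose 2 hk
        rw [e4] at h6
        have h7 : (6 : ℝ) ≤ (k.choose 2 : ℝ) := by exact_mod_cast h6
        have := (hl k hk).1
        linarith)
      (fun k hk => by
        rw [e4]
        push_cast
        exact le_rfl)
      (fun k hk => one_le_ffac k hk) F₁ F₂ h h1ne h2ne
    rw [e4] at hg
    refine hg.trans ?_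
    exact mul_le_mul_of_nonneg_right (ffac_rpow n hn) (by positivity)

end Pool.Agent.Results.MP_e243c1_co.SharpExponent
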