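import Mathlib
import Pool.Agent.Helper41.KF.All3

set_option autoImplicit false

/-!
# `K_1(S) ⊗ ℚ = 0` for smooth projective surfaces over finite fields

The group `H^3(S, ℤ(2)) = CH^2(S, 1) = H^1(S, K_2)` of a smooth projective surface `S` with function
field `E` is the homology in the middle of the Gersten complex

`K_2(E) → ⊕_D κ(D)^* → ⊕_y ℤ`

(`D` prime divisors, `y` closed points; tame symbols, orders of functions). We prove that it is
torsion when the ground field is an algebraic extension of `𝔽_p`, for instance a finite field.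
-/

universe u

namespace Pool.Agent.Results.MP_de59b4_ag.SurfaceK1

open MvPolynomial Classical

/-! ## Tame symbols -/

section Tame

variable {E : Type u} [Field E]

/-- the order of `f` at the discrete valuation ring `D` of `E`: the `n` with `f = w ϖ^n`, `w` a
unit and `ϖ` a uniformizer of `D` (`0` if there is none) -/
noncomputable def ordD (D : ValuationSubring E) (f : E) : ℤ :=
  if h : ∃ n : ℤ, ∃ ϖ : D, Irreducible ϖ ∧ ∃ w : Dˣ, f = ((w : D) : E) * (ϖ : E) ^ n
  then h.choose else 0

/-- the class in the residue field of a unit of `D` (`1` for other elements of `E`) -/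
noncomputable def rs (D : ValuationSubring E) (e : E) : (IsLocalRing.ResidueField D)ˣ :=
  if h : ∃ w : Dˣ, ((w : D) : E) = e then
    Units.map (IsLocalRing.residue D : D →* IsLocalRing.ResidueField D) h.choose else 1

/-- the tame symbol of `f` and `g` at `D`: the class of
`(-1)^(ord f ord g) f^(ord g) / g^(ord f)` -/
noncomputable def tame (D : ValuationSubring E) (f g : E) : (IsLocalRing.ResidueField D)ˣ :=
  rs D ((-1) ^ (ordD D f * ordD D g) * (f ^ ordD D g * (g ^ ordD D f)⁻¹))

end Tame

/-! ## Projective varieties given by the homogeneous coordinates of their generic point -/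

section Var

variable (k : Type u) {E : Type u} [Field k] [Field E] [Algebra k E] {r : ℕ}

/-- the affine coordinate ring `k[ξ 0 / ξ j, ..., ξ r / ξ j]` of the part of the variety where the
coordinate `j` is nonzero -/
noncomputable def chart (ξ : Fin (r + 1) → E) (j : Fin (r + 1)) : Subalgebra k E :=
  Algebra.adjoin k (Set.range fun i => ξ i / ξ j)

/-- `O` is the local ring at a closed point of the projective variety with generic point `ξ`: the
localisation of an affine coordinate ring at a maximal ideal -/
def IsClosedPt (ξ : Fin (r + 1) → E) (O : Subring E) : Prop :=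
  ∃ j, ξ j ≠ 0 ∧ ∃ m : Ideal (chart k ξ j), m.IsMaximal ∧
    ∀ e : E, e ∈ O ↔ ∃ a b : chart k ξ j, b ∉ m ∧ e = (a : E) / b

/-- The projective variety over `k` with generic point `ξ` has function field `E` and is a regular
surface: all its local rings at closed points are regular of dimension two (over a perfect field:
a smooth projective connected surface). -/
structure IsSmoothSurf (ξ : Fin (r + 1) → E) : Prop where
  ne : ξ ≠ 0
  frac : ∀ e : E, ∃ (m : ℕ) (G H : MvPolynomial (Fin (r + 1)) k), G.IsHomogeneous m ∧
    H.IsHomogeneous m ∧ aeval ξ H ≠ 0 ∧ e = aeval ξ G / aeval ξ H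
  reg : ∀ O : Subring E, IsClosedPt k ξ O → IsRegularLocalRing O ∧ ringKrullDim O = 2

/-- the prime divisors, as discrete valuation rings of the function field: the localisations of
the local rings at closed points which are valuation rings, other than `E` -/
def primeDiv (ξ : Fin (r + 1) → E) : Set (ValuationSubring E) :=
  {D | D ≠ ⊤ ∧ ∃ O : Subring E, IsClosedPt k ξ O ∧ O ≤ D.toSubring ∧
    ∀ e ∈ D, ∃ a ∈ O, ∃ b ∈ O, b ≠ 0 ∧ b⁻¹ ∈ D ∧ e = a / b}

end Var

/-! ## The divisor of a rational function on a prime divisor -/

section Ord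

variable {E : Type u} [Field E]

/-- the ideal of the prime divisor `D` in the local ring `O` (generated by the elements of `O`
which are not units of `D`) -/
noncomputable def cenP (O : Subring E) (D : ValuationSubring E) : Ideal O :=
  Ideal.span {e | (e : E) = 0 ∨ ((e : E) ∈ D ∧ (e : E)⁻¹ ∉ D)}

/-- the length of `O / (P, g)`, where `P` is the ideal of `D` in `O` -/
noncomputable def lenP (O : Subring E) (D : ValuationSubring E) (g : O) : ℕ :=
  (Module.length O (O ⧸ (cenP O D ⊔ Ideal.span {g}))).toNat

/-- the order at the closed point with local ring `O` of the rational function `a` on the prime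
divisor `D`: if `a` is the class of `g₁ / g₂`, `g₁` and `g₂` in `O` and units of `D`, it is the
length of `O / (P, g₁)` minus the length of `O / (P, g₂)`; it is zero if the point is not on `D` -/
noncomputable def ordP (O : Subring E) (D : ValuationSubring E)
    (a : (IsLocalRing.ResidueField D)ˣ) : ℤ :=
  if h : O ≤ D.toSubring ∧ ∃ g : O × O, (g.1 : E) ≠ 0 ∧ (g.1 : E)⁻¹ ∈ D ∧ (g.2 : E) ≠ 0 ∧
      (g.2 : E)⁻¹ ∈ D ∧ a = rs D ((g.1 : E) / (g.2 : E))
  then (lenP O D h.2.choose.1 : ℤ) - lenP O D h.2.choose.2 else 0

end Ord

/-- Let `k` be an algebraic extension of `𝔽_p`, for instance a finite field, and let `S` be a smooth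
projective surface over `k` with function field `E`. Let `a D` be rational functions on the prime
divisors `D` of `S`, almost all equal to `1`, the sum of whose divisors is zero: at each closed
point the sum of the orders of the `a D` vanishes. Then there are `n > 0` and finitely many
`f_i, g_i` in `E^*` such that `a D ^ n` is the product of the tame symbols of the `f_i, g_i` at `D`,
for all prime divisors `D`. -/
theorem result (p : ℕ) [Fact p.Prime] (k E : Type u) [Field k] [CharP k p]
    [Algebra (ZMod p) k] [Algebra.IsAlgebraic (ZMod p) k] [Field E] [Algebra k E] (r : ℕ)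
    (ξ : Fin (r + 1) → E) (hξ : IsSmoothSurf k ξ)
    (a : (D : ValuationSubring E) → (IsLocalRing.ResidueField D)ˣ)
    (hfin : {D ∈ primeDiv k ξ | a D ≠ 1}.Finite)
    (hcyc : ∀ O : Subring E, IsClosedPt k ξ O → ∑ᶠ D ∈ primeDiv k ξ, ordP O D (a D) = 0) :
    ∃ n : ℕ, 0 < n ∧ ∃ s : List (E × E), (∀ fg ∈ s, fg.1 ≠ 0 ∧ fg.2 ≠ 0) ∧
      ∀ D ∈ primeDiv k ξ, a D ^ n = (s.map (fun fg => tame D fg.1 fg.2)).prod :=
  Pool.Agent.Helper41.KF.aFINq p k E r ξ ⟨hξ.ne, hξ.frac, hξ.reg⟩ a hfin hcyc

end Pool.Agent.Results.MP_de59b4_ag.SurfaceK1
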